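import Pool.Agent.Helper12.PC.Base
import Pool.Agent.N375.AV.D

/-!
# The period conjecture for families of 1-motives and iterated integrals, at all points of size near the values of compositions of additive functions

Let `E_z` be a family of elliptic curves over an open set `U` of the complex numbers, with algebraic invariants
and nonconstant `j`, with algebraic sections `P_1, …, P_r` which are independent modulo torsion, together with a tower
of integrals `t_1, …, t_s` (`Family`; for instance integrals of the three kinds on fixed curves, logarithms of
algebraic functions, iterated integrals, multiple polylogarithms). The periods `ω₁, ω₂, η₁, u_i, ζ(u_i), t_k` and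
`log σ(∑ N_ki u_i)` at `z` (`periods`) are built from the periods of Nori motives `M_z`. Let `ξ_1, …, ξ_g` be arbitrary
complex numbers, for instance the monomials up to a given degree in the periods of any fixed motive `M`, `F` a number
field with an embedding in `ℂ`, and `K` a compact subset of `U`. The period conjecture for the sum of `M` and `M_z`
says that in general the numbers `periods` at `z` are algebraically independent over the field of the periods of `M`.

Let `f = f_1 ∘ ⋯ ∘ f_k` be a composition of functions dominated by the largest prime factor (`PD`), for example additive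
functions `f_i` with `f_i (q^j) ≤ C q^j` at the prime powers, with different values at different large primes (the sum of
the prime factors), the largest prime factor itself, and Kempner's function. Let `G` have steps bounded below by a
positive constant and growth at most `v ^ e`, for example `G v = v`, and `0 ≤ κ < 1`. For all `m ≤ M` but
`C M exp (- b (log M)^(1 / (k + 1)))`, for ALL points `x` of `F` in `K` of size `H(x)` with
`|H(x) - G (f m)| ≤ f(m) ^ κ` the numbers `periods` at `x` satisfy no algebraic relation of degree `d` with coefficients
`∑ ξ_i c_i`, `c_i` integers of `F` of size `H(x) ^ A`; and all these polynomials have values larger than `H(x) ^ (-B)` times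
their largest coefficient, where `B` does not depend on the `ξ_i` and on `f`.

The starting theorem `OneMotivesAndTowers` counts the exceptional points: at most `C T ^ ε` of size up to `T`. It is not
known that there are only finitely many for general `ξ_i`. The values of `f` are taken with very large multiplicities and
`f(m)` is in general much smaller than `m`, so that the theorem does not follow from this number alone.

Proof: the starting library `N375/AV` (preimages of thin sets) and the starting theorem.
-/

set_option autoImplicit false

open NumberField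
open scoped PeriodPair

namespace Pool.Agent.Results.MP_ae0f86_nt.AdditiveValues

open Pool.Agent.Results.MP_ae0f86_nt.OneMotivesAndTowers (Family periods)
open Pool.Agent.Helper12.PC (size Independent)
open Pool.Agent.N733.TG (Expanding expanding_pow)
open Pool.Agent.N375.AV (PD comp good pd_additive pd_largest pd_kempner)

/-- **The period conjecture for families of 1-motives at all points of size near the values of compositions of additive
functions.** For every family over `U`, every compact `K ⊆ U`, every number field `F` with an embedding `ι` in `ℂ`, all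
`g`, `d`, `A`, `e` and `0 ≤ κ < 1` there is `B` such that for all complex numbers `ξ_1, …, ξ_g`, all compositions
`comp fs` of `k` functions dominated by the largest prime factor and all `G` with steps `≥ a > 0` and growth at most
`v ^ e`: for all `m ≤ M` but `C M exp (- b (log M)^(1 / (k + 1)))`, for ALL `x ∈ F` with `ι x ∈ K` and
`|size x - G (comp fs m)| ≤ (comp fs m) ^ κ`, `Independent` holds at `x`: every polynomial of degree at most `d` in each
variable with coefficients `∑ ξ_i ι(c_i)`, `c_i` integers of `F` with conjugates at most `(size x) ^ A`, takes at the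
numbers `periods` at `ι x` a value larger than `(size x) ^ (-B)` times each nonzero coefficient. The additive functions
with `f (q^j) ≤ C q^j` which are injective at the large primes, the largest prime factor and Kempner's function are
examples of such functions, and `α v ^ e` with `α > 0`, `e ≥ 1` is an example of `G`. -/
theorem result :
    (∀ {r s q : ℕ} (U : Set ℂ) (Λ : ℂ → PeriodPair) (u : Fin r → ℂ → ℂ) (t : Fin s → ℂ → ℂ)
      (N : Fin q → Fin r → ℤ) (S : Fin q → ℂ → ℂ), Family U Λ u t N S → ∀ K : Set ℂ, IsCompact K → K ⊆ U →
      ∀ (F : Type) [Field F] [NumberField F] (ι : F →+* ℂ) (g d : ℕ) (A e κ : ℝ), 0 ≤ κ → κ < 1 →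
      ∃ B : ℝ, ∀ (ξ : Fin g → ℂ) (fs : List (ℕ → ℕ)), (∀ f ∈ fs, PD f) →
      ∀ G : ℕ → ℝ, Expanding G e →
      ∃ b C : ℝ, 0 < b ∧ ∀ M : ℕ, 1 ≤ M →
      ({m : ℕ | 1 ≤ m ∧ m ≤ M ∧ ¬ ∀ x : F, ι x ∈ K →
          |(size x : ℝ) - G (comp fs m)| ≤ (comp fs m : ℝ) ^ κ →
          Independent (periods Λ u t S) d ι ξ A B x}.ncard : ℝ) ≤
        C * M * Real.exp (-(b * Real.log M ^ ((1 : ℝ) / (fs.length + 1))))) ∧
    (∀ f : ℕ → ℕ, (∀ a b : ℕ, Nat.Coprime a b → f (a * b) = f a + f b) →
      (∃ C : ℕ, ∀ q j : ℕ, q.Prime → 1 ≤ j → f (q ^ j) ≤ C * q ^ j) →
      (∃ P : ℕ, ∀ p q : ℕ, p.Prime → q.Prime → P ≤ p → P ≤ q → f p = f q → p = q) → PD f) ∧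
    (PD (fun n => n.primeFactors.sup id) ∧ PD (fun n => sInf {k : ℕ | n ∣ k.factorial})) ∧
    ∀ α e : ℝ, 0 < α → 1 ≤ e → Expanding (fun v => α * (v : ℝ) ^ e) e := by
  refine ⟨?_, fun f h2 h3 h4 => pd_additive h2 h3 h4, ⟨pd_largest, pd_kempner⟩,
    fun α e hα he => expanding_pow hα he⟩
  intro r s q U Λ u t N S hU K hK hKU F _ _ ι g d A e κ hκ h1
  obtain ⟨ε, hε, hεκ⟩ : ∃ ε : ℝ, 0 < ε ∧ e * ε + κ < 1 := by
    have h2 : 0 < 2 * (|e| + 1) := by positivity
    refine ⟨(1 - κ) / (2 * (|e| + 1)), div_pos (by linarith) h2, ?_⟩
    have h3 : e * ((1 - κ) / (2 * (|e| + 1))) ≤ (1 - κ) / 2 := by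
      rw [← mul_div_assoc, div_le_div_iff₀ h2 (by norm_num)]
      have := le_abs_self e
      nlinarith
    linarith
  obtain ⟨B, hB⟩ := Pool.Agent.Helper12.PC.count U Λ u t N S hU K hK hKU F ι g d A ε hε
  refine ⟨B, fun ξ fs hfs G hG => ?_⟩
  obtain ⟨b, C, hb, hbC⟩ := good (fun x : F => ι x ∈ K)
    (fun x : F => Independent (periods Λ u t S) d ι ξ A B x)
    (fun x : F => (size x : ℝ)) fs hfs hG (s := ε) (κ := κ) hε.le hκ hεκ (hB ξ)
  exact ⟨b, C, hb, fun M hM => hbC M hM⟩

end Pool.Agent.Results.MP_ae0f86_nt.AdditiveValues
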