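import Pool.Agent.Helper12.PC.Base
import Pool.Agent.N790.CM.C

/-!
# The period conjecture for families of 1-motives and iterated integrals, at all points of size near all multiples of Carmichael's function of almost all integers

Let `E_z` be a family of elliptic curves over an open set `U` of the complex numbers, with algebraic invariants
and nonconstant `j`, with algebraic sections `P_1, …, P_r` which are independent modulo torsion, together with a tower
of integrals `t_1, …, t_s` (`Family`; for instance integrals of the three kinds on fixed curves, logarithms of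
algebraic functions, iterated integrals, multiple polylogarithms). The periods `ω₁, ω₂, η₁, u_i, ζ(u_i), t_k` and
`log σ(∑ N_ki u_i)` at `z` (`periods`) are built from the periods of Nori motives `M_z`. Let `ξ_1, …, ξ_g` be arbitrary
complex numbers, for instance the monomials up to a given degree in the periods of any fixed motive `M`, `F` a number
field with an embedding in `ℂ`, and `K` a compact subset of `U`. The period conjecture for the sum of `M` and `M_z`
says that in general the numbers `periods` at `z` are algebraically independent over the field of the periods of `M`.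

Let `G` have steps bounded below by a positive constant and growth at most `v ^ e`, for example `G v = v`, `D ≥ 1` and
`0 ≤ κ < 1 / D`. For all `u ≤ M` but `M / (log M) ^ A'` and ALL multiples `w ≤ M ^ D` of Carmichael's function `λ(u)` (for
example Euler's function `φ(u)`), for ALL points `x` of `F` in `K` of size `H(x)` with `|H(x) - G(w)| ≤ w ^ κ` the numbers
`periods` at `x` satisfy no algebraic relation of degree `d` with coefficients `∑ ξ_i c_i`, `c_i` integers of `F` of size
`H(x) ^ A`; and all these polynomials have values larger than `H(x) ^ (-B)` times their largest coefficient, where `B`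
does not depend on the `ξ_i`. The same is true for the common multiples `w` of the numbers `f p`, `p` the large primes
which divide `u` exactly once, if `f` takes each positive value at boundedly many primes, for example `f p = |P(p)|`
for a nonconstant polynomial `P`.

The starting theorem `OneMotivesAndTowers` counts the exceptional points: at most `C T ^ ε` of size up to `T`. It is not
known that there are only finitely many for general `ξ_i`. Some `w` are multiples of `λ(u)` for more than `M ^ (1 - δ)`
of the `u ≤ M`, so that the theorem does not follow from this number alone.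

Proof: the starting library `N790/CM` (common multiples) and the starting theorem.
-/

set_option autoImplicit false

open NumberField
open scoped PeriodPair

namespace Pool.Agent.Results.MP_ae0f86_nt.CarmichaelMultiples

open Pool.Agent.Results.MP_ae0f86_nt.OneMotivesAndTowers (Family periods)
open Pool.Agent.Helper12.PC (size Independent)
open Pool.Agent.N733.TG (Expanding expanding_pow)
open Pool.Agent.N790.CM (FewTimes Carries OnMultiples OnCarmichael fewTimes_pred fewTimes_poly keep_good)

/-- **The period conjecture for families of 1-motives at all points of size near all multiples of Carmichael's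
function.** For every family over `U`, every compact `K ⊆ U`, every number field `F` with an embedding `ι` in `ℂ`, all
`g`, `d`, `A`, `e`, `κ ≥ 0` and `D ≥ 1` with `D κ < 1` there is `B` such that for all complex numbers `ξ_1, …, ξ_g` and all
`G` with steps `≥ a > 0` and growth at most `v ^ e`: for all `u ≤ M` but `M / (log M) ^ A'` and ALL multiples `w ≤ M ^ D` of
`λ(u)`, and also for all common multiples `w ≤ M ^ D` of the numbers `f p`, `p > exp (√(log M))` a prime which divides `u`
exactly once, `f` any function which takes each positive value at boundedly many primes, for ALL `x ∈ F` with `ι x ∈ K`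
and `|size x - G w| ≤ w ^ κ`, `Independent` holds at `x`: every polynomial of degree at most `d` in each variable with
coefficients `∑ ξ_i ι(c_i)`, `c_i` integers of `F` with conjugates at most `(size x) ^ A`, takes at the numbers `periods`
at `ι x` a value larger than `(size x) ^ (-B)` times each nonzero coefficient. Examples of `f` are `p - 1` and `|P(p)|`,
`P` a nonconstant polynomial, and `α v ^ e` with `α > 0`, `e ≥ 1` is an example of `G`. -/
theorem result :
    (∀ {r s q : ℕ} (U : Set ℂ) (Λ : ℂ → PeriodPair) (u : Fin r → ℂ → ℂ) (t : Fin s → ℂ → ℂ)
      (N : Fin q → Fin r → ℤ) (S : Fin q → ℂ → ℂ), Family U Λ u t N S → ∀ K : Set ℂ, IsCompact K → K ⊆ U →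
      ∀ (F : Type) [Field F] [NumberField F] (ι : F →+* ℂ) (g d : ℕ) (A e κ D : ℝ), 0 ≤ κ → 1 ≤ D → D * κ < 1 →
      ∃ B : ℝ, ∀ (ξ : Fin g → ℂ) (G : ℕ → ℝ), Expanding G e →
      OnMultiples D (fun w => ∀ x : F, ι x ∈ K → |(size x : ℝ) - G w| ≤ (w : ℝ) ^ κ →
        Independent (periods Λ u t S) d ι ξ A B x) ∧
      OnCarmichael D (fun w => ∀ x : F, ι x ∈ K → |(size x : ℝ) - G w| ≤ (w : ℝ) ^ κ →
        Independent (periods Λ u t S) d ι ξ A B x)) ∧
    (FewTimes (fun p => p - 1) 1 ∧
      (∀ P : Polynomial ℤ, 1 ≤ P.natDegree →
        FewTimes (fun p => (P.eval (p : ℤ)).natAbs) (2 * P.natDegree)) ∧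
      ∀ α e : ℝ, 0 < α → 1 ≤ e → Expanding (fun v => α * (v : ℝ) ^ e) e) := by
  refine ⟨?_, fewTimes_pred, fun P hP => fewTimes_poly P hP, fun α e hα he => expanding_pow hα he⟩
  intro r s q U Λ u t N S hU K hK hKU F _ _ ι g d A e κ D hκ hD h1
  obtain ⟨ε, hε, hεκ⟩ : ∃ ε : ℝ, 0 < ε ∧ D * (e * ε + κ) < 1 := by
    have hD0 : 0 < D := by linarith
    have h2 : 0 < 2 * (D * (|e| + 1)) := by positivity
    refine ⟨(1 - D * κ) / (2 * (D * (|e| + 1))), div_pos (by linarith) h2, ?_⟩
    have h3 : D * (e * ((1 - D * κ) / (2 * (D * (|e| + 1))))) ≤ (1 - D * κ) / 2 := by
      rw [← mul_div_assoc, ← mul_div_assoc, div_le_div_iff₀ h2 (by norm_num)]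
      have h4 : D * e ≤ D * (|e| + 1) := mul_le_mul_of_nonneg_left (by have := le_abs_self e; linarith) hD0.le
      nlinarith
    rw [mul_add]
    linarith
  obtain ⟨B, hB⟩ := Pool.Agent.Helper12.PC.count U Λ u t N S hU K hK hKU F ι g d A ε hε
  refine ⟨B, fun ξ G hG => ?_⟩
  have key := keep_good (fun x : F => ι x ∈ K) (fun x : F => Independent (periods Λ u t S) d ι ξ A B x)
    (fun x : F => (size x : ℝ)) hG (s := ε) (κ := κ) (B := D) hε.le hκ hD hεκ (hB ξ)
  exact ⟨key, key.carmichael⟩

end Pool.Agent.Results.MP_ae0f86_nt.CarmichaelMultiples
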