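import Pool.Agent.Helper12.PC.Base
import Pool.Agent.N760.IT.D

/-!
# The period conjecture for families of 1-motives and iterated integrals, at all points of size near the members of almost all orbits of Euler's function

Let `E_z` be a family of elliptic curves over an open set `U` of the complex numbers, with algebraic invariants
and nonconstant `j`, with algebraic sections `P_1, …, P_r` which are independent modulo torsion, together with a tower
of integrals `t_1, …, t_s` (`Family`; for instance integrals of the three kinds on fixed curves, logarithms of
algebraic functions, iterated integrals, multiple polylogarithms). The periods `ω₁, ω₂, η₁, u_i, ζ(u_i), t_k` and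
`log σ(∑ N_ki u_i)` at `z` (`periods`) are built from the periods of Nori motives `M_z`. Let `ξ_1, …, ξ_g` be arbitrary
complex numbers, for instance the monomials up to a given degree in the periods of any fixed motive `M`, `F` a number
field with an embedding in `ℂ`, and `K` a compact subset of `U`. The period conjecture for the sum of `M` and `M_z`
says that in general the numbers `periods` at `z` are algebraically independent over the field of the periods of `M`.

Let `φ_k` be the `k`-th iterate of Euler's function, `φ_0(m) = m`. Let `f` be a positive multiplicative function of at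
most polynomial growth such that `f p ≤ M p` for the large primes `p`, with different values at different large primes;
for example the identity, Euler's function or the sum of the divisors. Let `G` have steps bounded below by a positive
constant and growth at most `v ^ e`, for example `G v = v`, and `0 ≤ κ < 1`. There is `L(m)` tending to infinity such that
for almost all `m`, for all `k ≤ L(m)`, with `v = f(φ_k(m))`, for ALL points `x` of `F` in `K` of size `H(x)` with
`|H(x) - G v| ≤ v ^ κ` the numbers `periods` at `x` satisfy no algebraic relation of degree `d` with coefficients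
`∑ ξ_i c_i`, `c_i` integers of `F` of size `H(x) ^ A`; and all these polynomials have values larger than `H(x) ^ (-B)` times
their largest coefficient, where `B` does not depend on the `ξ_i` and on `f`.

The starting theorem `OneMotivesAndTowers` counts the exceptional points: at most `C T ^ ε` of size up to `T`. It is not
known that there are only finitely many for general `ξ_i`. The numbers `φ_k(m)` are in a very thin set and are in general
taken with very large multiplicities, so that the theorem does not follow from this number alone.

Proof: the starting library `N760/IT` and the starting theorem.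
-/

set_option autoImplicit false

open NumberField
open scoped PeriodPair

namespace Pool.Agent.Results.MP_ae0f86_nt.TotientOrbits

open Filter
open Pool.Agent.Results.MP_ae0f86_nt.OneMotivesAndTowers (Family periods)
open Pool.Agent.Helper12.PC (size Independent)
open Pool.Agent.N733.TG (LM Expanding lm_totient lm_sigma expanding_pow)
open Pool.Agent.N760.IT (orb lm_id orbit_windows)
open Pool.Agent.N826.IT.Orb (AlmostAll)

/-- **The period conjecture for families of 1-motives at all points of size near the orbits of Euler's function.** For
every family over `U`, every compact `K ⊆ U`, every number field `F` with an embedding `ι` in `ℂ`, all `g`, `d`, `A`, `e` and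
`0 ≤ κ < 1` there is `B` such that for all complex numbers `ξ_1, …, ξ_g`, all multiplicative and positive `f` of at most
polynomial growth, with `f p ≤ M p` at the large primes and injective there, and all `G` with steps `≥ a > 0` and growth
at most `v ^ e`: there is `L(m)` tending to infinity such that for almost all `m`, for all `k ≤ L(m)`, with
`v = f(φ_k(m))` (`orb f k m`), for ALL `x ∈ F` with `ι x ∈ K` and `|size x - G v| ≤ v ^ κ`, `Independent` holds at `x`: every
polynomial of degree at most `d` in each variable with coefficients `∑ ξ_i ι(c_i)`, `c_i` integers of `F` with conjugates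
at most `(size x) ^ A`, takes at the numbers `periods` at `ι x` a value larger than `(size x) ^ (-B)` times each nonzero
coefficient. The identity, Euler's function and the sum of the divisors are examples of such functions `f`, and
`α v ^ e` with `α > 0`, `e ≥ 1` is an example of `G`. -/
theorem result :
    (∀ {r s q : ℕ} (U : Set ℂ) (Λ : ℂ → PeriodPair) (u : Fin r → ℂ → ℂ) (t : Fin s → ℂ → ℂ)
      (N : Fin q → Fin r → ℤ) (S : Fin q → ℂ → ℂ), Family U Λ u t N S → ∀ K : Set ℂ, IsCompact K → K ⊆ U →
      ∀ (F : Type) [Field F] [NumberField F] (ι : F →+* ℂ) (g d : ℕ) (A e κ : ℝ), 0 ≤ κ → κ < 1 →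
      ∃ B : ℝ, ∀ (ξ : Fin g → ℂ) (f : ℕ → ℕ), LM f → ∀ G : ℕ → ℝ, Expanding G e →
      ∃ L : ℕ → ℕ, Tendsto L atTop atTop ∧
        AlmostAll (fun m => ∀ k ≤ L m, ∀ x : F, ι x ∈ K →
          |(size x : ℝ) - G (orb f k m)| ≤ (orb f k m : ℝ) ^ κ →
          Independent (periods Λ u t S) d ι ξ A B x)) ∧
    (LM (fun m => m) ∧ LM Nat.totient ∧ LM (fun m => ∑ d ∈ m.divisors, d)) ∧
    ∀ α e : ℝ, 0 < α → 1 ≤ e → Expanding (fun v => α * (v : ℝ) ^ e) e := by
  refine ⟨?_, ⟨lm_id, lm_totient, lm_sigma⟩, fun α e hα he => expanding_pow hα he⟩
  intro r s q U Λ u t N S hU K hK hKU F _ _ ι g d A e κ hκ h1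
  obtain ⟨ε, hε, hεκ⟩ : ∃ ε : ℝ, 0 < ε ∧ e * ε + κ < 1 := by
    have h2 : 0 < 2 * (|e| + 1) := by positivity
    refine ⟨(1 - κ) / (2 * (|e| + 1)), div_pos (by linarith) h2, ?_⟩
    have h3 : e * ((1 - κ) / (2 * (|e| + 1))) ≤ (1 - κ) / 2 := by
      rw [← mul_div_assoc, div_le_div_iff₀ h2 (by norm_num)]
      have := le_abs_self e
      nlinarith
    linarith
  obtain ⟨B, hB⟩ := Pool.Agent.Helper12.PC.count U Λ u t N S hU K hK hKU F ι g d A ε hε
  refine ⟨B, fun ξ f hf G hG => ?_⟩
  obtain ⟨L, hL, h3⟩ := orbit_windows {x : F | ι x ∈ K ∧ ¬ Independent (periods Λ u t S) d ι ξ A B x}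
    (fun x : F => (size x : ℝ)) hf hG (s := ε) (κ := κ) hε.le hκ hεκ (hB ξ)
  refine ⟨L, hL, ?_⟩
  refine Pool.Agent.N826.IT.Orb.almostAll_mono h3 fun m h k hk x hx hn => ?_
  by_contra h5
  exact h k hk x ⟨hx, h5⟩ hn

end Pool.Agent.Results.MP_ae0f86_nt.TotientOrbits
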