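import Pool.Agent.Helper5.WS.Tan
import Pool.Agent.Helper5.WS.Per
import Pool.Agent.Q282.UM.Rat

/-!
# Nori motives and the cubic hypersurfaces of sets of triples

`C` is Nori's category of mixed motives over the field `k = ℚ̄ ⊆ ℂ` (the theorem holds for all algebraic
extensions of `ℚ` in `ℂ`), an abelian rigid tensor category, with the de Rham realization `dR`, the Betti
realization `B` and the comparison isomorphisms. For a scheme `X`, separated and of finite type over
`k`, the object `H i X` is the Nori motive `H^i_c(X)`, the cohomology with compact support, and
`L = ℚ(-1)`. For a finite set `E` of triples of natural numbers let `V_E` be the (smooth, affine)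
hypersurface `∑_{(h, i, j) ∈ E} x_h y_i z_j = 1` over `k`, and `H^*_c(V_E)` the direct sum of its cohomology
groups with compact support.

**Theorem.** Grothendieck's period conjecture (Q1) is true for all Nori motives over `ℚ̄` if and only if it
is true for the motives `H^*_c(V_E)`, for all finite sets `E` of triples.

The proof shows that every Nori motive `N` belongs to the tensor category `⟨H^*_c(V_E)⟩^{⊗,∨}` for some set
`E`: it is obtained from `H^*_c(V_E)` by direct sums, tensor products, duals, subobjects and quotients. (No
extensions are needed.)

So the conjecture is a statement about the integrals of polynomial differential forms on the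
hypersurfaces `∑_{(h, i, j) ∈ E} x_h y_i z_j = 1`, whose equations have only the coefficients `0` and `1`.

The assertion of Q1 for `M` is used in the form (iii) of the problem file: the evaluation map is injective
on the formal periods of `⟨M⟩^{⊗,∨}` (`PeriodConjecture`).

The library contains principles of this form for classes of varieties which are closed under all
decompositions into a closed and an open part; the subquotients of sums of twists of the `H^i_c(V_E)` are
not such a class, as the category of mixed motives is not semisimple, and the old principles give only
iterated **extensions**, which are not in `⟨H^*_c(V_E)⟩^{⊗,∨}` and have other periods. The new argument is a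
**separation of weights** (`Pool.Agent.Helper5.WS.embed_sys`): if an affine scheme is the open part
`x_0 y_0 ≠ 0` of a system of bilinear equations in `x`, `y` (times a torus), we add new variables `s_j`, `t_j`
and the bilinear equations `x_0 t_j = 0`, `s_j y_0 = 0`, `j < r`. The open part does not change, and the closed
part `x_0 y_0 = 0` becomes a union of two pieces which are products with `𝔸^r`, so its cohomology has
weights `≥ 2r`, larger than all weights of the open part if `r` is large. The equations have coefficients in
`ℚ̄`; if the coefficients are taken as new variables subject to their minimal equations, the scheme becomes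
an open and closed subscheme of a scheme whose equations have rational coefficients
(`Pool.Agent.Helper5.WS.exists_clopen`).
-/

set_option autoImplicit false

open CategoryTheory CategoryTheory.Limits AlgebraicGeometry MonoidalCategory
open Pool.Agent.Y116.UV Pool.Agent.Z125.UN Pool.Agent.Helper5.WS

universe v u

namespace Pool.Agent.Results.MP_ae0f86_nt.TripleHypersurfaces

attribute [local instance] CategoryTheory.Abelian.hasFiniteBiproducts

variable {k : Type} [Field k] [Algebra k ℂ] {C : Type u} [Category.{v} C] [Abelian C]
  [MonoidalCategory C] [RightRigidCategory C]

/-- The assertion of Q1 for the motive `M`, in the form (iii) of the problem file: the evaluation is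
injective on the formal periods of `⟨M⟩^{⊗,∨}`. -/
def PeriodConjecture (P : Realizations k C) (M : C) : Prop :=
  PeriodInjective P (Gen fun N => N = M)

/-- `M` is the direct sum `H^*_c(X)` of the objects `H j X`: the direct sum for all `j` in a finite set
which contains all `j` with `H j X ≠ 0`. -/
def IsTotal (H : ℤ → Sch k → C) (X : Sch k) (M : C) : Prop :=
  ∃ J : Finset ℤ, (∀ j ∉ J, IsZero (H j X)) ∧ M = ⨁ fun j : {x // x ∈ J} => H j.1 X

/-- The object `X` is invertible. -/
def IsInvertible (X : C) : Prop := Nonempty (X ⊗ Xᘁ ≅ 𝟙_ C)

/-- The known properties of Nori's category of motives.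
* `weights`, `compact`: the properties of weights and of the cohomology with compact support listed in
  `IsWt` and `IsCompactThy`, for the Tate twist `M(-1) = M ⊗ L`;
* `unit`, `invertible`: `H^0_c(Spec k)` is the unit object, and the objects `L^{⊗m}` are invertible;
* `negative`: `H^i_c(X) = 0` for `i < 0`;
* `generated`: the objects `H^i_c(X)`, `X` affine, generate the category, as a rigid tensor category
  closed under subquotients. (Every Nori motive is a subquotient of a direct sum of motives
  `H^i(W ∖ Z, Y ∖ Z)(n)`, `W` smooth and projective, `Y ∪ Z` a divisor with normal crossings, see the book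
  of Huber and Müller-Stach. If `s_1, …, s_r` are the sections of line bundles which define the
  components of `Z`, then `H^i(W ∖ Z, Y ∖ Z)` is a direct summand of `H^{i+r}_c(X)`, where `X` is the
  scheme `t_1 b_1 = s_1, …, t_r b_r = s_r` over `W ∖ Y`, since the direct image with compact support of
  `ℚ` for `{t b = s}` is the sum of `Rj_* ℚ[-1]`, `j` the inclusion of `s ≠ 0`, and `ℚ(-1)[-2]`. By
  Jouanolou's device `X` may be replaced by an affine scheme, up to a Tate twist.)
* `natural`: the comparison isomorphism is functorial;
* `local_global`: if the evaluation is injective on all formal periods then it is injective on the formal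
  periods of `⟨M⟩^{⊗,∨}` for every `M` (problem file). -/
structure IsNoriThy (H : ℤ → Sch k → C) (L : C) (Le Ge : ℤ → C → Prop) (P : Realizations k C) :
    Prop where
  weights : IsWt (tensThy H L Le Ge)
  compact : IsCompactThy (tensThy H L Le Ge)
  unit : Nonempty (H 0 (aff k k) ≅ 𝟙_ C)
  invertible : ∀ m : ℕ, IsInvertible ((tw (tensorRight L) m).obj (𝟙_ C))
  negative : ∀ X : Sch k, FT True X → ∀ i < 0, IsZero (H i X)
  generated : ∀ N : C, Gen (AffSet H) N
  natural : IsNatural P
  local_global : PeriodInjective P (fun _ => True) → ∀ M, PeriodConjecture P M

/-- **Theorem.** The assertion of Q1 is true for all Nori motives if and only if it is true for the motives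
`H^*_c(V_E)`, for all finite sets `E` of triples, where `V_E` is the hypersurface
`∑_{(h, i, j) ∈ E} x_h y_i z_j = 1`. -/
theorem result [CharZero k] [Algebra.IsAlgebraic ℚ k] {H : ℤ → Sch k → C} {L : C}
    {Le Ge : ℤ → C → Prop} {P : Realizations k C} (hN : IsNoriThy H L Le Ge P) :
    (∀ M : C, PeriodConjecture P M) ↔
      ∀ (a b c : ℕ) (E : Finset (Fin a × Fin b × Fin c)) (M : C), IsTotal H (tripS k E) M →
        PeriodConjecture P M := by
  have hl := fun l : List C => gen_total hN.compact hN.weights hN.unit hN.invertible
    Pool.Agent.Q282.UM.presents_rat hN.negative l fun N _ => hN.generated N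
  refine ⟨fun h a b c E M _ => h M, fun h => ?_⟩
  refine hN.local_global (injective_of_list P fun l => ?_)
  obtain ⟨a, b, c, E, J, hJ, hE⟩ := hl l
  exact ⟨_, hE, h a b c E _ ⟨J, hJ, rfl⟩⟩

end Pool.Agent.Results.MP_ae0f86_nt.TripleHypersurfaces
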